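import Pool.Agent.Q287.UA.Final

set_option autoImplicit false

/-!
# MP_6a6beb_pr, Q1: early vertices among the most central vertices of a uniform attachment tree

We prove the statement of Q1: for every `c > 1` and `δ > 0`, `R_{K,n}(c)` converges to
`φ(c) = c (1 - e^{-1/c})` in probability as `K → ∞`, with `n → ∞` first.
-/

open Finset Filter Topology

namespace Pool.Agent.Results.MP_6a6beb_pr.EarlyVertices

/-- The choices made in the construction of `T_n`: the vertex `i + 1` (for `i < n`) is joined to
the vertex `f i ∈ {0, …, i}`.  The random tree `T_n` is given by uniformly distributed choices. -/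
abbrev Choices (n : ℕ) : Type := (i : Fin n) → Fin (i + 1)

/-- The tree `T_n` on the vertex set `{0, …, n}`. -/
def tree {n : ℕ} (f : Choices n) : SimpleGraph (Fin (n + 1)) :=
  SimpleGraph.fromRel fun a b => ∃ i : Fin n, (a : ℕ) = i + 1 ∧ (b : ℕ) = f i

/-- The centrality `ψ_G(v)` of the vertex `v` in the graph `G`: the number of vertices of the
largest connected component left after deleting `v`. -/
noncomputable def centrality {V : Type} (G : SimpleGraph V) (v : V) : ℕ :=
  ⨆ C : (G.induce {v}ᶜ).ConnectedComponent, Nat.card C.supp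

/-- `w` comes before `v` in the order by increasing values of `ψ`, ties being broken by the
permutation `π` of the vertices. -/
def Precedes {n : ℕ} (ψ : Fin (n + 1) → ℕ) (π : Equiv.Perm (Fin (n + 1))) (w v : Fin (n + 1)) :
    Prop := ψ w < ψ v ∨ (ψ w = ψ v ∧ π w < π v)

open Classical in
/-- The set `A_m(n)` of the `m` most central vertices, ties being broken by `π`: the vertices
preceded by less than `m` vertices. -/
noncomputable def mostCentral {n : ℕ} (f : Choices n) (π : Equiv.Perm (Fin (n + 1))) (m : ℕ) :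
    Finset (Fin (n + 1)) :=
  univ.filter fun v => (univ.filter fun w => Precedes (centrality (tree f)) π w v).card < m

/-- The ratio `R_{K,n}(c)`. -/
noncomputable def ratio {n : ℕ} (f : Choices n) (π : Equiv.Perm (Fin (n + 1))) (K : ℕ) (c : ℝ) :
    ℝ :=
  (((mostCentral f π ⌈c * K⌉₊).filter fun v : Fin (n + 1) => (v : ℕ) < K).card : ℝ) / K

/-- `φ(c) = c (1 - e^{-1/c})`. -/
noncomputable def φ (c : ℝ) : ℝ := c * (1 - Real.exp (-(1 / c)))

/-- The probability that `|R_{K,n}(c) - φ(c)| > δ`, the choices `f` and the permutation `π` which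
breaks the ties being independent and uniformly distributed. -/
noncomputable def prob (c δ : ℝ) (K n : ℕ) : ℝ :=
  (Nat.card {x : Choices n × Equiv.Perm (Fin (n + 1)) // δ < |ratio x.1 x.2 K c - φ c|} : ℝ) /
    Nat.card (Choices n × Equiv.Perm (Fin (n + 1)))

/-- For all large `K`, and then for all large `n`, the probability is small. -/
theorem prob_le {c : ℝ} (hc : 1 < c) {δ ε : ℝ} (hδ : 0 < δ) (hε : 0 < ε) :
    ∀ᶠ K : ℕ in atTop, ∀ᶠ n : ℕ in atTop, prob c δ K n ≤ ε := by
  classical
  filter_upwards [Q287.UA.main_bound hc hδ hε] with K hK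
  filter_upwards [hK] with n hn
  obtain ⟨G, hG1, hG0, hG2⟩ := hn
  rw [Q287.UA.E_eq] at hG1
  unfold prob
  rw [Nat.card_eq_fintype_card, Nat.card_eq_fintype_card, Fintype.card_prod]
  have hC : (0 : ℝ) < Fintype.card (Choices n) := by
    have : 0 < Fintype.card (Choices n) := Fintype.card_pos
    exact_mod_cast this
  have hP : (0 : ℝ) < Fintype.card (Equiv.Perm (Fin (n + 1))) := by
    have : 0 < Fintype.card (Equiv.Perm (Fin (n + 1))) := Fintype.card_pos
    exact_mod_cast this
  have h1 : (Fintype.card {x : Choices n × Equiv.Perm (Fin (n + 1)) //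
      δ < |ratio x.1 x.2 K c - φ c|} : ℝ) ≤
      (∑ f : Choices n, G (Q287.UA.ext f)) * Fintype.card (Equiv.Perm (Fin (n + 1))) := by
    rw [Fintype.card_subtype, card_eq_sum_ones, sum_filter]
    push_cast
    rw [Fintype.sum_prod_type, sum_mul]
    apply sum_le_sum
    intro f _
    have h2 : ∀ π : Equiv.Perm (Fin (n + 1)),
        (if δ < |ratio f π K c - φ c| then (1 : ℝ) else 0) ≤ G (Q287.UA.ext f) := by
      intro π
      split_ifs with h
      · by_contra hlt
        exact absurd (hG2 f π (not_le.1 hlt)) (not_le.2 h)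
      · exact hG0 _
    calc ∑ π : Equiv.Perm (Fin (n + 1)), (if δ < |ratio f π K c - φ c| then (1 : ℝ) else 0)
        ≤ ∑ π : Equiv.Perm (Fin (n + 1)), G (Q287.UA.ext f) := sum_le_sum fun π _ => h2 π
      _ = _ := by rw [sum_const, card_univ, nsmul_eq_mul, mul_comm]
  push_cast
  rw [div_le_iff₀ (by positivity)]
  rw [div_le_iff₀ hC] at hG1
  calc _ ≤ _ := h1
    _ ≤ (ε * Fintype.card (Choices n)) * Fintype.card (Equiv.Perm (Fin (n + 1))) := by
        gcongr
    _ = _ := by ring

/-- Q1 holds: for every `c > 1` and every `δ > 0`,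
`lim_{K → ∞} limsup_{n → ∞} P(|R_{K,n}(c) - φ(c)| > δ) = 0`. -/
theorem result (c : ℝ) (hc : 1 < c) (δ : ℝ) (hδ : 0 < δ) :
    Tendsto (fun K : ℕ => limsup (fun n : ℕ => prob c δ K n) atTop) atTop (𝓝 0) := by
  have h0 : ∀ K n, 0 ≤ prob c δ K n := fun K n => by unfold prob; positivity
  have h1 : ∀ K n, prob c δ K n ≤ 1 := by
    intro K n
    unfold prob
    apply div_le_one_of_le₀ _ (by positivity)
    exact_mod_cast Nat.card_le_card_of_injective _ Subtype.val_injective
  rw [Metric.tendsto_atTop']
  intro ε hε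
  obtain ⟨N, hN⟩ := eventually_atTop.1 (prob_le hc hδ (half_pos hε))
  refine ⟨N, fun K hK => ?_⟩
  have hle : limsup (fun n : ℕ => prob c δ K n) atTop ≤ ε / 2 := by
    apply limsup_le_of_le
    · exact isCoboundedUnder_le_of_le atTop (x := 0) (fun n => h0 K n)
    · exact hN K hK.le
  have hge : 0 ≤ limsup (fun n : ℕ => prob c δ K n) atTop := by
    apply le_limsup_of_frequently_le
    · exact Frequently.of_forall fun n => h0 K n
    · exact isBoundedUnder_of ⟨1, fun n => h1 K n⟩
  rw [Real.dist_eq, sub_zero, abs_of_nonneg hge]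
  linarith

end Pool.Agent.Results.MP_6a6beb_pr.EarlyVertices
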